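import Mathlib
import Pool.Agent.R546.GL.Order
import Pool.Agent.R546.GW.Geo
import Pool.Agent.R546.GW.Smooth

/-!
The number of rational points of bounded anticanonical height, over the rational numbers, on the
varieties `X = {(x_v)_v : x_u ᵀ M_{u v} x_v = 0 for all edges u v of G}` in the product of `m + 1`
projective spaces of dimension `n v - 1`, where `G` is any finite graph with vertices
`0, …, m` and the ranks of the bilinear forms are not too small: the conjectured order of
magnitude `B (log B) ^ m` is a lower bound, and `B ^ (1 + ε)` is an upper bound.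

* `M u v`: the integer matrix of the equation of the edge `u v`, with `M v u = (M u v)ᵀ`.
* `dg G v`: the degree of the vertex `v`.
* `cf M x u v = x_u ᵀ M_{u v}`: the coefficient vector of the equation of the edge `u v` as a
  linear equation for `x_v`.
* `Inc G M x`: the point `x` satisfies the equations of all edges, which define `X`.
* `InU G M x`: for every vertex `v` the vectors `cf M x u v`, for the neighbours `u` of `v`, are
  linearly independent.  This is a condition which defines an open set `U` of `X`.
* `RankCond G M`: `rank M_{u v} ≥ deg u + 2 deg v - 1` for all `u`, `v` which are adjacent.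
* `Rep v`: `v` is the normalised primitive integer representative of a rational point of a
  projective space (greatest common divisor of the coordinates `1`, first nonzero coordinate
  positive); `ht v` is its height, the maximum of the absolute values of the coordinates.
* `Pts G M B`: the rational points of `U` with `∏ H(x_v) ^ (n_v - deg v) ≤ B` (the anticanonical
  class of a smooth complete intersection `X` is `∑ (n_v - deg v) H_v`).
* `SmoothAt G M z`: the gradients of the equations of the edges are linearly independent at `z`.

The theorem: `U` is not empty; `Pts G M B` is finite and has at most `C B ^ (1 + ε)` elements for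
`B ≥ 1`, and at least `c B (log B) ^ m` elements for all large `B`; and if every vertex `v`
has at most one neighbour `u < v`, and the rows of `M_{u v}` are linearly independent for it, then
the Jacobian criterion holds at all complex points with all `z_v ≠ 0`.
-/

namespace Pool.Agent.Results.MP_1acd66_nt.GraphOrder

open Pool.Agent.R546.GW
open Pool.Agent.R546.GL
open Matrix

theorem result {m : ℕ} {n : Fin (m + 1) → ℕ} (G : SimpleGraph (Fin (m + 1)))
    (M : ∀ u v : Fin (m + 1), Matrix (Fin (n u)) (Fin (n v)) ℤ) (hM : ∀ u v, M v u = (M u v)ᵀ)
    (hR : RankCond G M) (hn : ∀ v, dg G v + 2 ≤ n v) :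
    (∃ x : ∀ v, Fin (n v) → ℤ, Inc G M x ∧ InU G M x ∧ ∀ v, x v ≠ 0) ∧
    (∃ c B₀ : ℝ, 0 < c ∧ ∀ B : ℝ, B₀ ≤ B →
      c * B * Real.log B ^ m ≤ ((Pts G M B).ncard : ℝ)) ∧
    (∀ ε : ℝ, 0 < ε → ∃ C : ℝ, ∀ B : ℝ, 1 ≤ B → (Pts G M B).Finite ∧
      ((Pts G M B).ncard : ℝ) ≤ C * B ^ (1 + ε)) ∧
    ((∀ v u u', G.Adj v u → G.Adj v u' → u < v → u' < v → u = u') →
      (∀ u v, G.Adj u v → u < v → LinearIndependent ℤ (fun i => M u v i)) →
      ∀ z : ∀ v, Fin (n v) → ℂ, (∀ v, z v ≠ 0) → SmoothAt G M z) :=
  ⟨exists_point hM hR (fun v => by have := hn v; omega), lower hM hR hn,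
    fun ε hε => upper_aw (Nat.succ_pos m) hM hR hn ε hε,
    fun hF hI z hz => smooth_forest hF hI z hz⟩

end Pool.Agent.Results.MP_1acd66_nt.GraphOrder
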