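import Mathlib
import Pool.Agent.R38.DB.Low

/-!
The number of rational points of bounded anticanonical height on complete intersections `X` of
`k` divisors of type `(d, 1)` in `ℙ^{n-1} × ℙ^{N-1}` over the rational numbers, with `n > d k` and
`N > k + 1`: the order of magnitude `B log B`, which is conjectured for smooth `X`, is a lower bound
on every dense open subset of `X`.

* `F i j`: forms of degree `d` in `n` variables with integer coefficients, and `evz (F i j) x` is
  the value at `x`. The `k` equations of `X` are `∑ j, F i j (x) * y j = 0`.
* `InV F G x y`: the point `(x, y)` is on `X`, the `k` vectors `(F i j (x))_j` are linearly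
  independent (the fibre over `x` is of the expected dimension) and the polynomial `G` in the
  coordinates of `x` and `y` does not vanish at `two x y`, the pair as one vector.
* `Rep v`: `v` is the normalised primitive integer representative of a rational point of a
  projective space (greatest common divisor of the coordinates `1`, first nonzero coordinate
  positive); `ht v` is its height, the maximum of the absolute values of the coordinates.
* `Pts d F G B` is the set of the rational points in `InV F G` with
  `H(x) ^ (n - d k) * H(y) ^ (N - k) ≤ B` (the anticanonical class of a smooth `X` is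
  `(n - d k, N - k)`).

The theorem: the sets `Pts d F G B` are finite, and if there is a complex point in `InV F G`, then
`Pts d F G B` has at least `c B log B` elements for all large `B`.
-/

set_option autoImplicit false

namespace Pool.Agent.Results.MP_1acd66_nt.LinearDivisorsLowerOrder

open Pool.Agent.R38.DB

theorem result {k n N d : ℕ} (hn : 3 ≤ n) (hd : d * k + 1 ≤ n) (hk : k + 2 ≤ N)
    (F : Fin k → Fin N → MvPolynomial (Fin n) ℤ) (hF : ∀ i j, (F i j).IsHomogeneous d)
    (G : MvPolynomial (Fin n ⊕ Fin N) ℤ) :
    (∀ B : ℝ, (Pts d F G B).Finite) ∧
    ((∃ (x : Fin n → ℂ) (y : Fin N → ℂ), InV F G x y) →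
      ∃ c B₀ : ℝ, 0 < c ∧ ∀ B : ℝ, B₀ ≤ B →
        c * B * Real.log B ≤ ((Pts d F G B).ncard : ℝ)) :=
  ⟨finite_pts hd (by omega) F G, low hn hd hk hF⟩

end Pool.Agent.Results.MP_1acd66_nt.LinearDivisorsLowerOrder
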