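import Mathlib
import Pool.Agent.R38.DB.Net

/-!
The number of rational points of bounded anticanonical height on smooth divisors `X` of type
`(1, 2)` in the product of two projective planes over the rational numbers (nets of conics, a family
of Fano threefolds) without double lines: `B log B`, the order of magnitude which is conjectured, is
a lower bound on every dense open subset, and `B ^ (1 + ε)` is an upper bound on the open subset of
the smooth conics.

* `M 0, M 1, M 2`: symmetric integer `3 × 3` matrices, `gm M t = t₀ M₀ + t₁ M₁ + t₂ M₂`,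
  `qf A x = xᵀ A x`; `X` is given by `qf (gm M t) x = 0`.
* `Smooth M`: at every complex point `(t, x)` of `X` some partial derivative does not vanish.
* `NoDouble M`: for no complex `t ≠ 0` do all `2 × 2` minors of `gm M t` vanish (no conic of the net
  is a double line). This is assumed only for the upper bound.
* `InW M G t x`: the point `(t, x)` is on `X`, the conic with parameter `t` is smooth and the
  polynomial `G` in the coordinates of `t` and `x` does not vanish at `two t x`, the pair as one
  vector.
* `Rep v`: `v` is the normalised primitive integer representative of a rational point of the plane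
  (greatest common divisor of the coordinates `1`, first nonzero coordinate positive); `ht v` is its
  height, the maximum of the absolute values of the coordinates.
* `PtsN M G B` is the set of the rational points in `InW M G` with `H(t) ^ 2 * H(x) ≤ B` (the
  anticanonical class of `X` is `(2, 1)`).

The theorem: `PtsN M G B` is finite, and if there is a complex point in `InW M G`, then it has at
least `c B log B` elements for all large `B`; without double lines, there are smooth conics in the
net and `PtsN M G B` has at most `C B ^ (1 + ε)` elements for all `B ≥ 1`.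
-/

set_option autoImplicit false

namespace Pool.Agent.Results.MP_1acd66_nt.NetsOfConicsOrder

open Pool.Agent.R38.DB
open Pool.Agent.R38.NC (gm qf Smooth NoDouble geo_)

theorem result (M : Fin 3 → Matrix (Fin 3) (Fin 3) ℤ) (hM : ∀ i, (M i).IsSymm) (hs : Smooth M) :
    (∀ G : MvPolynomial (Fin 3 ⊕ Fin 3) ℤ,
      (∀ B : ℝ, (PtsN M G B).Finite) ∧
      ((∃ t x : Fin 3 → ℂ, x ≠ 0 ∧ InW M G t x) →
        ∃ c B₀ : ℝ, 0 < c ∧ ∀ B : ℝ, B₀ ≤ B →
          c * B * Real.log B ≤ ((PtsN M G B).ncard : ℝ))) ∧
    (NoDouble M →
      (∃ t x : Fin 3 → ℂ, t ≠ 0 ∧ x ≠ 0 ∧ qf (gm M t) x = 0 ∧ (gm M t).det ≠ 0) ∧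
      ∀ G : MvPolynomial (Fin 3 ⊕ Fin 3) ℤ, ∀ ε : ℝ, 0 < ε →
        ∃ C : ℝ, ∀ B : ℝ, 1 ≤ B → ((PtsN M G B).ncard : ℝ) ≤ C * B ^ (1 + ε)) :=
  ⟨fun G => ⟨finite_ptsN M G, lowN hs⟩,
    fun hd => ⟨(geo_ M hM hs hd).2.2, fun G ε hε => upN hM hs hd G ε hε⟩⟩

end Pool.Agent.Results.MP_1acd66_nt.NetsOfConicsOrder
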